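import Pool.Agent.P.MP_9c695c_an.Kfun

/-!
Norm inflation for the 2D Euler equation near a smooth steady state whose Lagrangian flow is not
periodic in time, in `H^s` for every `s > 0`, in every Besov space `B^s_{p,q}`, and in every space
that lies between two Besov spaces with the same `s` and `p`.
-/

open scoped Manifold ContDiff ENNReal NNReal
open MeasureTheory Set Pool.Agent.P.MP_9c695c_an

namespace Pool.Agent.Results.MP_9c695c_an.BesovInflation

/-- `M` is a compact connected oriented Riemannian surface, possibly with boundary, with area `μ`;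
`ζs` is a smooth steady vorticity with stream function `ψs` and flow map `Φ`, not periodic in time.
`N` lies between the norms of `(L^p, W^{m,p})_{θ,q₁}` and `(L^p, W^{m,p})_{θ,q₂}`; taking
`q₁ = q₂`, `C = 1` and `N` the interpolation norm gives `B^{θ m}_{p,q}`, and `H^{θ m}` for
`p = q = 2`. For all `ε > 0` and `K` there are smooth data `ζ₀`, `ε`-close to `ζs` in `N`, and a
time `T > 0` at which the Euler solution with data `ζ₀` (and the circulations of the steady state)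
is at distance at least `K` from `ζs`. -/
theorem result {E : Type*} [NormedAddCommGroup E] [InnerProductSpace ℝ E] [FiniteDimensional ℝ E]
    [MeasurableSpace E] [BorelSpace E] {H : Type*} [TopologicalSpace H]
    {I : ModelWithCorners ℝ E H} {M : Type*} [TopologicalSpace M] [ChartedSpace H M]
    [IsManifold I ∞ M] [CompactSpace M] [ConnectedSpace M] [T2Space M] [MeasurableSpace M]
    [BorelSpace M] (S : Surf I M) (μ : Measure M) (hμ : S.IsArea μ) (ψs ζs : M → ℝ)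
    (hs : S.IsStream μ ψs ζs) (hst : ∀ x, dv I ζs x (S.vel ψs x) = 0) (Φ : ℝ → M → M)
    (hΦ : IsFlow I (S.vel ψs) Φ) (hnp : ¬ ∃ T : ℝ, 0 < T ∧ Φ T = id)
    (n : ℕ) (V : Fin n → (x : M) → TangentSpace I x) (hV : IsFrame I V)
    (p q₁ q₂ : ℝ≥0∞) (hp : 1 ≤ p) (hq₁ : 1 ≤ q₁) (hq₂ : 1 ≤ q₂) (m : ℕ) (hm : 1 ≤ m)
    (θ : ℝ) (h0 : 0 < θ) (h1 : θ < 1) (N : (M → ℝ) → ℝ≥0∞) (C : ℝ≥0)
    (hN : ∀ f : M → ℝ, Smooth I f →
      besov I V μ p q₁ m θ f ≤ C * N f ∧ N f ≤ C * besov I V μ p q₂ m θ f)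
    (ε K : ℝ) (hε : 0 < ε) :
    ∃ (ψ₀ ζ₀ : M → ℝ) (T : ℝ), 0 < T ∧ S.IsStream μ ψ₀ ζ₀ ∧ S.SameCirc μ ψ₀ ζ₀ ψs ζs ∧
      N (ζ₀ - ζs) ≤ ENNReal.ofReal ε ∧ ∀ ψ ζ : ℝ → M → ℝ, S.IsEuler μ T ψ ζ → ζ 0 = ζ₀ →
        S.SameCirc μ (ψ 0) (ζ 0) ψs ζs → ENNReal.ofReal K ≤ N (ζ T - ζs) :=
  inflation_besov hμ hs hst hΦ hnp hV hp hq₁ hq₂ hm h0 h1 hN K hε

end Pool.Agent.Results.MP_9c695c_an.BesovInflation
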