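import Pool.Agent.P.MP_9c695c_an.Main

/-!
Norm inflation for the 2D Euler equation near a smooth steady state whose Lagrangian flow is not
periodic in time, in every norm `N` that measures smoothness of order `w` on an `L^p` scale
(the model is `w k = k ^ s`, `s > 0`, `m > s`, with `N` the norm of `H^s`, `W^{s,p}`, a Besov space
or a Hoelder space).
-/

open scoped Manifold ContDiff ENNReal
open MeasureTheory Set Pool.Agent.P.MP_9c695c_an

namespace Pool.Agent.Results.MP_9c695c_an.SobolevInflation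

/-- `M` is a compact connected oriented Riemannian surface, possibly with boundary, with area `μ`;
`ζs` is a smooth steady vorticity with stream function `ψs` and flow map `Φ`, not periodic in time.
For all `ε > 0` and `K` there are smooth data `ζ₀`, `ε`-close to `ζs` in `N`, and a time `T > 0`
at which the Euler solution with data `ζ₀` (and the circulations of the steady state) is at
distance at least `K` from `ζs`. -/
theorem result {E : Type*} [NormedAddCommGroup E] [InnerProductSpace ℝ E] [FiniteDimensional ℝ E]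
    [MeasurableSpace E] [BorelSpace E] {H : Type*} [TopologicalSpace H]
    {I : ModelWithCorners ℝ E H} {M : Type*} [TopologicalSpace M] [ChartedSpace H M]
    [IsManifold I ∞ M] [CompactSpace M] [ConnectedSpace M] [T2Space M] [MeasurableSpace M]
    [BorelSpace M] (S : Surf I M) (μ : Measure M) (hμ : S.IsArea μ) (ψs ζs : M → ℝ)
    (hs : S.IsStream μ ψs ζs) (hst : ∀ x, dv I ζs x (S.vel ψs x) = 0) (Φ : ℝ → M → M)
    (hΦ : IsFlow I (S.vel ψs) Φ) (hnp : ¬ ∃ T : ℝ, 0 < T ∧ Φ T = id) (N : (M → ℝ) → ℝ)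
    (w : ℝ → ℝ) (p : ℝ≥0∞) (m : ℕ) (hw : IsWeight w) (hp : 1 ≤ p) (hN : IsOrderNorm I N w p m)
    (ε K : ℝ) (hε : 0 < ε) :
    ∃ (ψ₀ ζ₀ : M → ℝ) (T : ℝ), 0 < T ∧ S.IsStream μ ψ₀ ζ₀ ∧ S.SameCirc μ ψ₀ ζ₀ ψs ζs ∧
      N (ζ₀ - ζs) ≤ ε ∧ ∀ ψ ζ : ℝ → M → ℝ, S.IsEuler μ T ψ ζ → ζ 0 = ζ₀ →
        S.SameCirc μ (ψ 0) (ζ 0) ψs ζs → K ≤ N (ζ T - ζs) :=
  inflation hμ hs hst hΦ hnp hw hp hN K hε

end Pool.Agent.Results.MP_9c695c_an.SobolevInflation
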